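import Pool.Agent.H72.GP.Targets

/-!
Board gpo_modules (MP_3cf473_nt), row TAL: the Taylor series of the real and imaginary parts of the
logarithm.
-/

set_option autoImplicit false

open Polynomial Finset Filter Topology
open Pool.Agent.H72.GP
open Pool.Agent.H85.PS (II MM Vec Sup Deg Jf Typ Maj Tay)

namespace Pool.Agent.H96.GPO

theorem gp_pow (x y : ℚ) (n : ℕ) :
    ((x : ℂ) + (y : ℂ) * Complex.I) ^ n =
      ((gp x y n).1 : ℂ) + ((gp x y n).2 : ℂ) * Complex.I ∧
    ((x : ℂ) - (y : ℂ) * Complex.I) ^ n =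
      ((gp x y n).1 : ℂ) - ((gp x y n).2 : ℂ) * Complex.I := by
  induction n with
  | zero => simp [gp]
  | succ n ih =>
    obtain ⟨h1, h2⟩ := ih
    rw [pow_succ, pow_succ, h1, h2]
    simp only [gp]
    push_cast
    constructor
    · linear_combination ((y : ℂ) * ((gp x y n).2 : ℂ)) * Complex.I_sq
    · linear_combination ((y : ℂ) * ((gp x y n).2 : ℂ)) * Complex.I_sq

theorem iter_inv (b : ℂ) (n : ℕ) (z : ℂ) :
    iteratedDeriv n (fun z : ℂ => b * (b * z + 1)⁻¹) z =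
      (-1) ^ n * n.factorial * b ^ (n + 1) * ((b * z + 1) ^ (n + 1))⁻¹ := by
  rw [iteratedDeriv_const_mul_field, iteratedDeriv_eq_iterate, iter_deriv_inv_linear]
  have h1 : (b * z + 1) ^ (-1 - n : ℤ) = ((b * z + 1) ^ (n + 1))⁻¹ := by
    rw [show (-1 - n : ℤ) = -((n + 1 : ℕ) : ℤ) by push_cast; ring, zpow_neg, zpow_natCast]
  simp only [h1]
  ring

theorem log_an (b z0 : ℂ) (h : 1 + b * z0 ∈ Complex.slitPlane) :
    AnalyticAt ℂ (fun z => Complex.log (1 + b * z)) z0 := by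
  have h1 : AnalyticAt ℂ (fun z : ℂ => 1 + b * z) z0 := by fun_prop
  exact h1.clog h

theorem log_iter (b z0 : ℂ) (h : 1 + b * z0 ∈ Complex.slitPlane) (n : ℕ) :
    iteratedDeriv (n + 1) (fun z => Complex.log (1 + b * z)) z0 =
      (-1) ^ n * n.factorial * (b / (1 + b * z0)) ^ (n + 1) := by
  rw [iteratedDeriv_succ']
  have hev : deriv (fun z => Complex.log (1 + b * z)) =ᶠ[𝓝 z0]
      fun z => b * (b * z + 1)⁻¹ := by
    have hc : ContinuousAt (fun z : ℂ => 1 + b * z) z0 := by fun_prop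
    have h2 : ∀ᶠ z in 𝓝 z0, (1 + b * z) ∈ Complex.slitPlane :=
      hc.eventually_mem (Complex.isOpen_slitPlane.mem_nhds h)
    refine h2.mono fun z hz => ?_
    have h3 : HasDerivAt (fun z : ℂ => 1 + b * z) b z := by
      have h4 := ((hasDerivAt_id z).const_mul b).const_add 1
      rw [mul_one] at h4
      exact h4
    rw [(h3.clog hz).deriv, div_eq_mul_inv, add_comm 1 (b * z)]
  rw [hev.iteratedDeriv_eq n, iter_inv, div_pow, add_comm (b * z0) 1]
  ring

theorem slit_of (x y z0 : ℚ) (h : (|x| + |y|) * |z0| < 1) :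
    (1 + ((x : ℂ) + (y : ℂ) * Complex.I) * (z0 : ℂ)) ∈ Complex.slitPlane ∧
    (1 + ((x : ℂ) - (y : ℂ) * Complex.I) * (z0 : ℂ)) ∈ Complex.slitPlane := by
  have h1 : 0 < 1 + x * z0 := by
    have h2 : |x * z0| ≤ (|x| + |y|) * |z0| := by
      rw [abs_mul]
      exact mul_le_mul_of_nonneg_right (le_add_of_nonneg_right (abs_nonneg y)) (abs_nonneg z0)
    have h3 := neg_abs_le (x * z0)
    linarith
  have h2 : (0 : ℝ) < ((1 + x * z0 : ℚ) : ℝ) := by exact_mod_cast h1
  constructor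
  · left
    have e : (1 + ((x : ℂ) + (y : ℂ) * Complex.I) * (z0 : ℂ)) =
        (((1 + x * z0 : ℚ) : ℝ) : ℂ) + (((y * z0 : ℚ) : ℝ) : ℂ) * Complex.I := by
      push_cast; ring
    rw [e]
    simp only [Complex.add_re, Complex.ofReal_re, Complex.mul_re, Complex.I_re, Complex.ofReal_im,
      Complex.I_im, mul_zero, zero_mul, sub_zero, add_zero]
    exact h2
  · left
    have e : (1 + ((x : ℂ) - (y : ℂ) * Complex.I) * (z0 : ℂ)) =
        (((1 + x * z0 : ℚ) : ℝ) : ℂ) + (((-(y * z0) : ℚ) : ℝ) : ℂ) * Complex.I := by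
      push_cast; ring
    rw [e]
    simp only [Complex.add_re, Complex.ofReal_re, Complex.mul_re, Complex.I_re, Complex.ofReal_im,
      Complex.I_im, mul_zero, zero_mul, sub_zero, add_zero]
    exact h2

theorem quot_eq (x y z0 : ℚ) (h : (|x| + |y|) * |z0| < 1) :
    ((x : ℂ) + (y : ℂ) * Complex.I) / (1 + ((x : ℂ) + (y : ℂ) * Complex.I) * (z0 : ℂ)) =
      (((x + (x ^ 2 + y ^ 2) * z0) / qn x y z0 : ℚ) : ℂ) +
        ((y / qn x y z0 : ℚ) : ℂ) * Complex.I ∧
    ((x : ℂ) - (y : ℂ) * Complex.I) / (1 + ((x : ℂ) - (y : ℂ) * Complex.I) * (z0 : ℂ)) =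
      (((x + (x ^ 2 + y ^ 2) * z0) / qn x y z0 : ℚ) : ℂ) -
        ((y / qn x y z0 : ℚ) : ℂ) * Complex.I := by
  obtain ⟨s1, s2⟩ := slit_of x y z0 h
  have n1 := Complex.slitPlane_ne_zero s1
  have n2 := Complex.slitPlane_ne_zero s2
  have hq : ((qn x y z0 : ℚ) : ℂ) = (1 + ((x : ℂ) + (y : ℂ) * Complex.I) * (z0 : ℂ)) *
      (1 + ((x : ℂ) - (y : ℂ) * Complex.I) * (z0 : ℂ)) := by
    unfold qn
    push_cast
    linear_combination ((y : ℂ) ^ 2 * (z0 : ℂ) ^ 2) * Complex.I_sq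
  have hq0 : ((qn x y z0 : ℚ) : ℂ) ≠ 0 := by rw [hq]; exact mul_ne_zero n1 n2
  constructor
  · rw [div_eq_iff n1]
    push_cast
    field_simp
    rw [hq]
    linear_combination (-(y : ℂ) ^ 2 * (z0 : ℂ) - (x : ℂ) * (y : ℂ) ^ 2 * (z0 : ℂ) ^ 2 -
      (y : ℂ) ^ 3 * (z0 : ℂ) ^ 2 * Complex.I) * Complex.I_sq
  · rw [div_eq_iff n2]
    push_cast
    field_simp
    rw [hq]
    linear_combination (-(y : ℂ) ^ 2 * (z0 : ℂ) - (x : ℂ) * (y : ℂ) ^ 2 * (z0 : ℂ) ^ 2 +
      (y : ℂ) ^ 3 * (z0 : ℂ) ^ 2 * Complex.I) * Complex.I_sq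

theorem pf_TAL : T_TAL := by
  intro κ x y z0 h
  obtain ⟨s1, s2⟩ := slit_of x y z0 h
  obtain ⟨q1, q2⟩ := quot_eq x y z0 h
  set x1 : ℚ := (x + (x ^ 2 + y ^ 2) * z0) / qn x y z0 with hx1
  set y1 : ℚ := y / qn x y z0 with hy1
  have a1 := log_an _ _ s1
  have a2 := log_an _ _ s2
  have hI : (Complex.I : ℂ) ≠ 0 := Complex.I_ne_zero
  cases κ with
  | false =>
    have hF : FF false x y = fun z => (1 / 2 : ℂ) *
        (Complex.log (1 + ((x : ℂ) + (y : ℂ) * Complex.I) * z) +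
        Complex.log (1 + ((x : ℂ) - (y : ℂ) * Complex.I) * z)) := by
      funext z
      simp only [FF, Bool.false_eq_true, if_false]
      ring
    refine ⟨?_, ?_⟩
    · rw [hF]
      exact analyticAt_const.mul (a1.add a2)
    · ext j
      unfold Tay
      rw [PowerSeries.coeff_mk, map_add, PowerSeries.coeff_C, PowerSeries.coeff_map]
      unfold lamG lgG
      rw [PowerSeries.coeff_mk]
      rcases j with _ | n
      · simp
      · rw [if_neg (Nat.succ_ne_zero n), zero_add, hF, iteratedDeriv_const_mul_field]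
        have e := iteratedDeriv_add (n := n + 1) (a1.contDiffAt) (a2.contDiffAt)
        have e' : iteratedDeriv (n + 1) (fun z =>
            Complex.log (1 + ((x : ℂ) + (y : ℂ) * Complex.I) * z) +
            Complex.log (1 + ((x : ℂ) - (y : ℂ) * Complex.I) * z)) (z0 : ℂ) = _ := e
        rw [e', log_iter _ _ s1, log_iter _ _ s2, q1, q2, (gp_pow x1 y1 (n + 1)).1,
          (gp_pow x1 y1 (n + 1)).2]
        have hn1 : ((n : ℂ) + 1) ≠ 0 := Nat.cast_add_one_ne_zero n
        have hfac : ((n.factorial : ℕ) : ℂ) ≠ 0 := Nat.cast_ne_zero.2 (Nat.factorial_ne_zero n)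
        simp only [eq_ratCast, Bool.false_eq_true, if_false]
        rw [Nat.factorial_succ]
        push_cast
        rw [← hx1, ← hy1]
        field_simp
        ring
  | true =>
    have hF : FF true x y = fun z => (1 / (2 * Complex.I) : ℂ) *
        (Complex.log (1 + ((x : ℂ) + (y : ℂ) * Complex.I) * z) -
        Complex.log (1 + ((x : ℂ) - (y : ℂ) * Complex.I) * z)) := by
      funext z
      simp only [FF, if_true]
      ring
    refine ⟨?_, ?_⟩
    · rw [hF]
      exact analyticAt_const.mul (a1.sub a2)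
    · ext j
      unfold Tay
      rw [PowerSeries.coeff_mk, map_add, PowerSeries.coeff_C, PowerSeries.coeff_map]
      unfold lamG lgG
      rw [PowerSeries.coeff_mk]
      rcases j with _ | n
      · simp
      · rw [if_neg (Nat.succ_ne_zero n), zero_add, hF, iteratedDeriv_const_mul_field]
        have e := iteratedDeriv_sub (n := n + 1) (a1.contDiffAt) (a2.contDiffAt)
        have e' : iteratedDeriv (n + 1) (fun z =>
            Complex.log (1 + ((x : ℂ) + (y : ℂ) * Complex.I) * z) -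
            Complex.log (1 + ((x : ℂ) - (y : ℂ) * Complex.I) * z)) (z0 : ℂ) = _ := e
        rw [e', log_iter _ _ s1, log_iter _ _ s2, q1, q2, (gp_pow x1 y1 (n + 1)).1,
          (gp_pow x1 y1 (n + 1)).2]
        have hn1 : ((n : ℂ) + 1) ≠ 0 := Nat.cast_add_one_ne_zero n
        have hfac : ((n.factorial : ℕ) : ℂ) ≠ 0 := Nat.cast_ne_zero.2 (Nat.factorial_ne_zero n)
        simp only [eq_ratCast, if_true]
        rw [Nat.factorial_succ]
        push_cast
        rw [← hx1, ← hy1]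
        field_simp
        ring

end Pool.Agent.H96.GPO
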